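import Pool.Agent.helper95.T6.SpecE

set_option autoImplicit false

namespace Pool.Agent.T6

open Finset Pool.Agent.helper3.FT Pool.Agent.T5

theorem ESZ_pow (N : ℝ) (hN : 0 < N) (c : ℝ) (k : ℕ) (h : 1 / 200 * (k : ℝ) = c) :
    N ^ c = (N ^ ((1 : ℝ) / 200)) ^ k := by
  rw [← Real.rpow_natCast, ← Real.rpow_mul hN.le, h]

/-- the lower bound of a quotient -/
theorem ESZ_div (X U a : ℝ) (k : ℕ) (hk : 1 ≤ k) (hU : 1 ≤ U) (hX : X ≤ U) (ha : U ^ (k + 100) ≤ a) :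
    X ≤ a / U ^ 100 := by
  have h1 : (0 : ℝ) < U ^ 100 := by positivity
  rw [le_div_iff₀ h1]
  have h2 : U ≤ U ^ k := by
    calc U = U ^ 1 := (pow_one U).symm
      _ ≤ U ^ k := pow_le_pow_right₀ hU hk
  calc X * U ^ 100 ≤ U ^ k * U ^ 100 := mul_le_mul_of_nonneg_right (hX.trans h2) h1.le
    _ = U ^ (k + 100) := (pow_add U k 100).symm
    _ ≤ a := ha

/-- ESZ -/
theorem ESZ : ESZ_stmt := by
  intro X
  refine ⟨(max X 2) ^ 200, ?_⟩
  intro N Y Y₂ hN hR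
  obtain ⟨r1, r2, -, r4⟩ := hR
  have hV2 : (2 : ℝ) ≤ max X 2 := le_max_right _ _
  have hV0 : (0 : ℝ) ≤ max X 2 := by linarith
  have hN1 : (1 : ℝ) ≤ N := (one_le_pow₀ (by linarith : (1 : ℝ) ≤ max X 2)).trans hN
  have hN0 : (0 : ℝ) < N := by linarith
  obtain ⟨U, hUdef⟩ : ∃ U, U = N ^ ((1 : ℝ) / 200) := ⟨_, rfl⟩
  have hVU : max X 2 ≤ U := by
    rw [hUdef]
    calc max X 2 = ((max X 2) ^ 200) ^ ((1 : ℝ) / 200) := by
          rw [← Real.rpow_natCast, ← Real.rpow_mul hV0]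
          norm_num
      _ ≤ N ^ ((1 : ℝ) / 200) := Real.rpow_le_rpow (by positivity) hN (by norm_num)
  have hXU : X ≤ U := (le_max_left _ _).trans hVU
  have hU2 : (2 : ℝ) ≤ U := hV2.trans hVU
  have hU1 : (1 : ℝ) ≤ U := by linarith
  have hU0 : (0 : ℝ) < U := by linarith
  have e1 : N ^ ((1 : ℝ) / 100) = U ^ 2 := by
    rw [hUdef]
    exact ESZ_pow N hN0 _ 2 (by norm_num)
  have e2 : N ^ ((1 : ℝ) - 1 / 100) = U ^ 198 := by
    rw [hUdef]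
    exact ESZ_pow N hN0 _ 198 (by norm_num)
  have e3 : N = U ^ 200 := by
    have := ESZ_pow N hN0 1 200 (by norm_num)
    rw [Real.rpow_one] at this
    rw [hUdef]
    exact this
  have e4 : √N = U ^ 100 := by
    rw [e3]
    have : U ^ 200 = (U ^ 100) ^ 2 := by ring
    rw [this]
    exact Real.sqrt_sq (by positivity)
  rw [e1] at r2
  rw [e2] at r4
  have hp : (0 : ℝ) < Y * Y₂ := lt_of_lt_of_le (by positivity) r4
  have hY0 : 0 < Y := by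
    by_contra h
    push Not at h
    have hU4 : (4 : ℝ) ≤ U ^ 2 := by
      calc (4 : ℝ) = 2 ^ 2 := by norm_num
        _ ≤ U ^ 2 := pow_le_pow_left₀ (by norm_num) hU2 2
    have h0 : U ^ 2 * Y ≤ 4 * Y := mul_le_mul_of_nonpos_right hU4 h
    have h1 : U ^ 2 * Y ≤ Y := by linarith
    have h2 : Y₂ ≤ Y := r2.trans h1
    have h3 : Y₂ = Y := le_antisymm h2 r1
    rw [h3] at r2 hp
    have h4 : Y ≠ 0 := by
      rintro rfl
      simp at hp
    have h5 : Y < 0 := lt_of_le_of_ne h h4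
    linarith
  have hY20 : 0 < Y₂ := by linarith
  have hYsq : U ^ 196 ≤ Y ^ 2 := by
    have h1 : U ^ 198 ≤ Y * (U ^ 2 * Y) := r4.trans (mul_le_mul_of_nonneg_left r2 hY0.le)
    have h2 : U ^ 2 * U ^ 196 ≤ U ^ 2 * Y ^ 2 := by
      calc U ^ 2 * U ^ 196 = U ^ 198 := by ring
        _ ≤ Y * (U ^ 2 * Y) := h1
        _ = U ^ 2 * Y ^ 2 := by ring
    exact le_of_mul_le_mul_left h2 (by positivity)
  have hY : U ^ 98 ≤ Y := by
    have h1 : (U ^ 98) ^ 2 ≤ Y ^ 2 := by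
      calc (U ^ 98) ^ 2 = U ^ 196 := by ring
        _ ≤ _ := hYsq
    exact le_of_sq_le_sq h1 hY0.le
  have hY2 : U ^ 98 ≤ Y₂ := hY.trans r1
  have hs : ∀ y : ℝ, U ^ 98 ≤ y → U ^ 49 ≤ √y := by
    intro y hy
    refine Real.le_sqrt_of_sq_le ?_
    calc (U ^ 49) ^ 2 = U ^ 98 := by ring
      _ ≤ y := hy
  have hs1 := hs Y hY
  have hs2 := hs Y₂ hY2
  have hUU : ∀ k : ℕ, U ≤ U ^ (k + 1) := fun k => by
    calc U = U ^ 1 := (pow_one U).symm
      _ ≤ U ^ (k + 1) := pow_le_pow_right₀ hU1 (by omega)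
  refine ⟨hN1, hXU.trans ((hUU 97).trans hY), hXU.trans ((hUU 97).trans hY2), ?_, ?_, ?_, ?_⟩
  · unfold sN
    rw [e4]
    refine ESZ_div X U _ 47 (by norm_num) hU1 hXU ?_
    calc U ^ (47 + 100) = U ^ 98 * U ^ 49 := by ring
      _ ≤ Y * √Y₂ := by gcongr
  · unfold sK
    rw [e4]
    refine ESZ_div X U _ 47 (by norm_num) hU1 hXU ?_
    calc U ^ (47 + 100) = U ^ 49 * U ^ 98 := by ring
      _ ≤ √Y * Y₂ := by gcongr
  · unfold sM
    rw [e4]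
    refine ESZ_div X U _ 96 (by norm_num) hU1 hXU ?_
    calc U ^ (96 + 100) = U ^ 98 * U ^ 49 * U ^ 49 := by ring
      _ ≤ Y * √Y * √Y₂ := by gcongr
  · unfold sG
    rw [e4]
    refine ESZ_div X U _ 96 (by norm_num) hU1 hXU ?_
    calc U ^ (96 + 100) = U ^ 49 * U ^ 98 * U ^ 49 := by ring
      _ ≤ √Y * Y₂ * √Y₂ := by gcongr

end Pool.Agent.T6
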