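import Pool.Agent.helper8.T6.SpecC1
import Pool.Agent.helper11.T5.TR

set_option autoImplicit false

namespace Pool.Agent.T6

open Finset Pool.Agent.T5

theorem TLO2_e1 (p n : ℕ) (hp : p.Prime) (hn : ¬ p ∣ n) : e1 p n = p := by
  unfold e1
  rw [hp.primeFactors, Finset.filter_singleton, if_pos hn, Finset.prod_singleton, hp.factorization_self, pow_one]

theorem TLO2_e2 (p n : ℕ) (hp : p.Prime) (hn : ¬ p ∣ n) : e2 p n = 1 := by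
  unfold e2
  rw [hp.primeFactors, Finset.filter_singleton, if_neg hn, Finset.prod_empty]

theorem TLO2_e1' (n : ℕ) : e1 1 n = 1 := by
  unfold e1
  rw [Nat.primeFactors_one, Finset.filter_empty, Finset.prod_empty]

theorem TLO2_e2' (n : ℕ) : e2 1 n = 1 := by
  unfold e2
  rw [Nat.primeFactors_one, Finset.filter_empty, Finset.prod_empty]

theorem TLO2_mod (p n k m g R m0 g0 R0 : ℤ) (hm : p ∣ m - m0) (hg : p ∣ g - g0) (hR : p ∣ R - R0)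
    (h : p ∣ Pk n k m g R) : p ∣ Pk n k m0 g0 R0 := by
  have hm' : m0 ≡ m [ZMOD p] := Int.modEq_iff_dvd.mpr hm
  have hg' : g0 ≡ g [ZMOD p] := Int.modEq_iff_dvd.mpr hg
  have hR' : R0 ≡ R [ZMOD p] := Int.modEq_iff_dvd.mpr hR
  have hz : m0 ^ 2 + k * R0 ≡ m ^ 2 + k * R [ZMOD p] := (hm'.pow 2).add (hR'.mul_left k)
  have h1 : n ^ 2 * g0 * R0 ≡ n ^ 2 * g * R [ZMOD p] := (hg'.mul_left _).mul hR'
  have h2 : m0 * k * (m0 ^ 2 + k * R0) ≡ m * k * (m ^ 2 + k * R) [ZMOD p] := (hm'.mul_right k).mul hz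
  have h3 : n ^ 2 * m0 * g0 + k ^ 2 * (m0 ^ 2 + k * R0) ≡ n ^ 2 * m * g + k ^ 2 * (m ^ 2 + k * R) [ZMOD p] :=
    ((hm'.mul_left _).mul hg').add (hz.mul_left _)
  have h4 : Pk n k m0 g0 R0 ≡ Pk n k m g R [ZMOD p] := by
    unfold Pk
    exact ((h1.sub h2).pow 2).sub (((hz.pow 2).mul_left 4).mul h3)
  exact (Int.ModEq.dvd_iff h4).mpr h

theorem TLO2_res (p : ℕ) (hp : 0 < p) (m : ℤ) : ∃ r ∈ range p, (p : ℤ) ∣ m - (r : ℤ) := by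
  have h0 : (0 : ℤ) < p := by exact_mod_cast hp
  refine ⟨(m % p).toNat, ?_, ?_⟩
  · rw [mem_range]
    have h1 := Int.emod_lt_of_pos m h0
    have h2 := Int.emod_nonneg m h0.ne'
    omega
  · rw [Int.toNat_of_nonneg (Int.emod_nonneg m h0.ne')]
    exact Int.dvd_self_sub_emod

/-- TLO2 -/
theorem TLO2 (hTPI : TPI_stmt) (hTSN : TSN_stmt) (hTLF : TLF_stmt) : TLO2_stmt := by
  intro p n k hp hp2 hn hk hnk hpn
  have hpn1 : ¬ p ∣ n := fun h => hpn (h.mul_right k)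
  have hpk1 : ¬ p ∣ k := fun h => hpn (h.mul_left n)
  have hpn2 : ¬ (p : ℤ) ∣ (n : ℤ) := fun h => hpn1 (Int.natCast_dvd_natCast.mp h)
  have hpk2 : ¬ (p : ℤ) ∣ (k : ℤ) := fun h => hpk1 (Int.natCast_dvd_natCast.mp h)
  obtain ⟨hc1, hc2⟩ := hTSN p n k hp hp2 hpn2 hpk2
  have hch : ∀ x : ℕ × ℕ × ℕ, ∃ y : ℤ × ℤ × ℤ, ¬ (p : ℤ) ∣ Pk' n k x.1 x.2.1 x.2.2 →
      ∀ m g R Z : ℤ, (p : ℤ) ∣ m - x.1 → (p : ℤ) ∣ g - x.2.1 →
    (p : ℤ) ∣ R - x.2.2 → (p : ℤ) ^ 2 ∣ Pk n k m g R → (k : ℤ) * R = Z * (n : ℤ) ^ 2 - m ^ 2 →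
    (p : ℤ) ^ 2 ∣ Z - (y.1 + y.2.1 * m + y.2.2 * g) := by
    intro x
    by_cases hx : (p : ℤ) ∣ Pk' n k x.1 x.2.1 x.2.2
    · exact ⟨(0, 0, 0), fun h => absurd hx h⟩
    · obtain ⟨u, v, w, h⟩ := hTLF p n k x.1 x.2.1 x.2.2 hp hpn2 hx
      exact ⟨(u, v, w), fun _ => h⟩
  choose f hf using hch
  have hL : (((cub p).filter (fun x => (p : ℤ) ∣ Pk n k x.1 x.2.1 x.2.2)).image
      (fun x => (⟨x.1, x.2.1, 0, 0, (f x).1, (f x).2.1, (f x).2.2⟩ : Cls))).card ≤ 3 * p ^ 2 :=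
    Finset.card_image_le.trans hc1
  have hL' : (((cub p).filter (fun x => (p : ℤ) ∣ Pk n k x.1 x.2.1 x.2.2 ∧
      (p : ℤ) ∣ Pk' n k x.1 x.2.1 x.2.2)).image
      (fun x => (⟨x.1, x.2.1, x.2.2, 0, 0, 0, 0⟩ : Cls))).card ≤ 12 * p :=
    Finset.card_image_le.trans hc2
  refine ⟨((cub p).filter (fun x => (p : ℤ) ∣ Pk n k x.1 x.2.1 x.2.2)).image
      (fun x => (⟨x.1, x.2.1, 0, 0, (f x).1, (f x).2.1, (f x).2.2⟩ : Cls)),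
    ((cub p).filter (fun x => (p : ℤ) ∣ Pk n k x.1 x.2.1 x.2.2 ∧
      (p : ℤ) ∣ Pk' n k x.1 x.2.1 x.2.2)).image (fun x => (⟨x.1, x.2.1, x.2.2, 0, 0, 0, 0⟩ : Cls)),
    ?_, ?_, ?_⟩
  · exact hL
  · exact hL'
  intro t ht htnk hdis
  have hT1 := (hTPI t ht).1
  have hT2 := (TR t ht).2.1
  rw [htnk] at hT1 hT2
  simp only at hT1 hT2
  obtain ⟨m0, hm0, hm⟩ := TLO2_res p hp.pos t.2.1
  obtain ⟨g0, hg0, hg⟩ := TLO2_res p hp.pos t.2.2.1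
  obtain ⟨R0, hR0, hR⟩ := TLO2_res p hp.pos (RR t)
  have hP2 : (p : ℤ) ^ 2 ∣ Pk n k t.2.1 t.2.2.1 (RR t) := by
    rw [← hT1]
    exact hdis.mul_left _
  have hP1 : (p : ℤ) ∣ Pk n k m0 g0 R0 :=
    TLO2_mod p n k _ _ _ m0 g0 R0 hm hg hR ((dvd_pow_self _ (by norm_num)).trans hP2)
  have hcub : (m0, g0, R0) ∈ cub p := by
    unfold cub
    rw [Finset.mem_product, Finset.mem_product]
    exact ⟨hm0, hg0, hR0⟩
  by_cases hP' : (p : ℤ) ∣ Pk' n k m0 g0 R0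
  · right
    refine ⟨⟨m0, g0, R0, 0, 0, 0, 0⟩, Finset.mem_image.mpr ⟨(m0, g0, R0), Finset.mem_filter.mpr
      ⟨hcub, hP1, hP'⟩, rfl⟩, ?_⟩
    refine ⟨?_, ?_, ?_, ?_, ?_⟩
    · rw [one_mul]
      exact hm
    · rw [one_mul]
      exact hg
    · rw [htnk]
      change ((e1 p n : ℕ) : ℤ) ∣ _
      rw [TLO2_e1 p n hp hpn1]
      exact hR
    · rw [htnk]
      change ((e2 p n : ℕ) : ℤ) ∣ _
      rw [TLO2_e2 p n hp hpn1]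
      exact ⟨_, (one_mul _).symm⟩
    · rw [Nat.cast_one, one_pow]
      exact ⟨_, (one_mul _).symm⟩
  · left
    refine ⟨⟨m0, g0, 0, 0, (f (m0, g0, R0)).1, (f (m0, g0, R0)).2.1, (f (m0, g0, R0)).2.2⟩,
      Finset.mem_image.mpr ⟨(m0, g0, R0), Finset.mem_filter.mpr ⟨hcub, hP1⟩, rfl⟩, ?_⟩
    refine ⟨?_, ?_, ?_, ?_, ?_⟩
    · rw [mul_one]
      exact hm
    · rw [mul_one]
      exact hg
    · rw [TLO2_e1', Nat.cast_one]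
      exact ⟨_, (one_mul _).symm⟩
    · rw [TLO2_e2', Nat.cast_one]
      exact ⟨_, (one_mul _).symm⟩
    · have h9 := hf (m0, g0, R0) hP' t.2.1 t.2.2.1 (RR t) t.2.2.2 hm hg hR hP2 hT2
      exact h9

end Pool.Agent.T6
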